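import Pool.Agent.Helper58.N4.Stmt
import Pool.Agent.Helper3.NF.Main

set_option autoImplicit false

/-- A smooth surface patch in Euclidean four-space on a connected open domain whose mean curvature
vector satisfies `ΔH = cH` for a nonzero constant `c` and whose shape operators commute at every
point (flat normal bundle) has constant mean curvature. -/
theorem Pool.Agent.Results.MP_c4dbfc_gt.FlatNormalBundle.result :
    ∀ (U : Set (ℝ × ℝ)) (f : ℝ × ℝ → EuclideanSpace ℝ (Fin 4)),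
      IsOpen U → IsConnected U →
      ContDiffOn ℝ ((⊤ : ℕ∞) : WithTop ℕ∞) f U →
      (∀ p ∈ U, 0 < NullTwo.gD f p) →
      (∀ p ∈ U, ∀ ξ η : EuclideanSpace ℝ (Fin 4), NullTwo.IsNormal f p ξ →
        NullTwo.IsNormal f p η → NullTwo.shapeComm f p ξ η = 0) →
      (∃ c : ℝ, c ≠ 0 ∧ ∀ p ∈ U, NullTwo.lap f (NullTwo.lap f f) p = c • NullTwo.lap f f p) →
      ∃ k : ℝ, ∀ p ∈ U, ‖NullTwo.lap f f p‖ = k :=
  N4.flat_statement
    (fun _ hW _ hc _ _ _ _ _ _ _ _ _ _ _ _ _ _ _ _ G => NF.no_flat hW hc G.gd)
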