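import Pool.Agent.Helper5.N2.Fin2

/-- A null 2-type conformal immersion of the plane into Euclidean space of any dimension with
nonnegative Gauss curvature, which is proper or has conformal factor at least `c0 / (1 + |p|²)`, has
constant mean curvature. -/
theorem Pool.Agent.Results.MP_c4dbfc_gt.NonnegCurvature.result :
    ∀ (m : ℕ) (f : ℝ × ℝ → EuclideanSpace ℝ (Fin m)) (g : ℝ × ℝ → ℝ), N2.ConfImm m f g →
      (∀ p, N2.flatLap (fun q => Real.log (g q)) p ≤ 0) →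
      ((∃ c0 : ℝ, 0 < c0 ∧ ∀ p : ℝ × ℝ, c0 / (1 + (p.1 ^ 2 + p.2 ^ 2)) ≤ g p) ∨
        (∀ R : ℝ, IsCompact {p | ‖f p‖ ≤ R})) →
      (∃ c : ℝ, c ≠ 0 ∧ ∀ p, N2.LB g (N2.LB g f) p = c • N2.LB g f p) →
      ∃ k : ℝ, ∀ p, ‖N2.LB g f p‖ = k :=
  fun m f g hI hK he ⟨c, hc, hL⟩ => N2.conf_curv m f g hI c hc hL hK he
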