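import Pool.Agent.Helper5.N2.Fin2

/-- A null 2-type conformal immersion of the plane into Euclidean 4-space whose harmonic part grows
less than quadratically has constant mean curvature. -/
theorem Pool.Agent.Results.MP_c4dbfc_gt.SubquadraticHarmonicPart.result :
    ∀ (f : ℝ × ℝ → EuclideanSpace ℝ (Fin 4)) (g : ℝ × ℝ → ℝ), N2.ConfImm 4 f g →
      ∀ c : ℝ, c ≠ 0 → (∀ p, N2.LB g (N2.LB g f) p = c • N2.LB g f p) →
      (∀ ε : ℝ, 0 < ε → ∃ C : ℝ, ∀ p : ℝ × ℝ,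
        ‖f p - (1 / c) • N2.LB g f p‖ ≤ ε * (p.1 ^ 2 + p.2 ^ 2) + C) →
      ∃ k : ℝ, ∀ p, ‖N2.LB g f p‖ = k :=
  fun f g hI c hc hL hgr => N2.conf_harm f g hI c hc hL hgr
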