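import Pool.Agent.Helper5.N2.Fin2
import Pool.Agent.Helper86.Order

/-- A null 2-type conformal immersion of the plane into Euclidean 4-space whose conformal factor is
`o(|p|²)`, and which is proper or has conformal factor at least `c0 / (1 + |p|²)`, has constant mean
curvature. -/
theorem Pool.Agent.Results.MP_c4dbfc_gt.SubquadraticMetric.result :
    ∀ (f : ℝ × ℝ → EuclideanSpace ℝ (Fin 4)) (g : ℝ × ℝ → ℝ), N2.ConfImm 4 f g →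
      (∃ c : ℝ, c ≠ 0 ∧ ∀ p, N2.LB g (N2.LB g f) p = c • N2.LB g f p) →
      (∀ ε : ℝ, 0 < ε → ∃ C : ℝ, ∀ p : ℝ × ℝ, g p ≤ ε * (p.1 ^ 2 + p.2 ^ 2) + C) →
      ((∃ c0 : ℝ, 0 < c0 ∧ ∀ p : ℝ × ℝ, c0 / (1 + (p.1 ^ 2 + p.2 ^ 2)) ≤ g p) ∨
        (∀ R : ℝ, IsCompact {p | ‖f p‖ ≤ R})) →
      ∃ k : ℝ, ∀ p, ‖N2.LB g f p‖ = k :=
  fun f g hI ⟨c, hc, hL⟩ hg he => N2.conf_metric f g hI c hc hL hg he
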